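import Pool.Agent.Q240.SD.Dh
import Pool.Agent.W190.C3

/-! # Project SD: Carlson's density theorem in the form needed -/

set_option autoImplicit false

open Complex Filter Topology Set MeasureTheory

namespace Pool.Agent.Q240.SD

open Pool.Agent.Y23 (mu IsZ)

lemma FF_zero {s : ℂ} (h : IsZ s) : H353.FF s = 0 := by
  have h1 : s ≠ 1 := by
    rintro rfl
    have := h.2.2
    simp at this
  show ZU.J_g2b.FF s = 0
  rw [ZU.J_g2b.FF_ne h1, h.1, mul_zero]

lemma mu_353 {s : ℂ} (h : IsZ s) : H353.mu s = mu s := by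
  have h1 : s ≠ 1 := by
    rintro rfl
    have := h.2.2
    simp at this
  have hev : H353.FF =ᶠ[𝓝 s] fun v => (v - 1) * riemannZeta v := by
    filter_upwards [isOpen_ne.mem_nhds h1] with v hv
    exact ZU.J_g2b.FF_ne hv
  have hA : AnalyticAt ℂ (fun v : ℂ => v - 1) s := by fun_prop
  have hz : AnalyticAt ℂ riemannZeta s := Pool.Agent.Y23.zeta_an h.2.2
  have h2 : analyticOrderAt (fun v : ℂ => v - 1) s = 0 := by
    rw [hA.analyticOrderAt_eq_zero]
    exact sub_ne_zero.2 h1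
  have h3 : analyticOrderAt H353.FF s = analyticOrderAt riemannZeta s := by
    rw [analyticOrderAt_congr hev]
    have := analyticOrderAt_mul hA hz
    rw [h2, zero_add] at this
    exact this
  unfold H353.mu mu analyticOrderNatAt
  rw [h3]

/-- Carlson's theorem -/
theorem carl (σ e : ℝ) (hσ : 1 / 2 < σ) (hσ1 : σ ≤ 1) (he : 0 < e) :
    ∃ T0 : ℝ, ∀ T : ℝ, T0 ≤ T → AtMost (Zr σ T) (T ^ (4 * σ * (1 - σ) + e)) := by
  rcases hσ1.lt_or_eq with h1 | h1
  · obtain ⟨C, hC, h⟩ := Pool.Agent.W190.carlson σ (e / 2) hσ h1 (by linarith)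
    have h2 := (tendsto_rpow_atTop (show 0 < e / 2 by linarith)).eventually_ge_atTop C
    obtain ⟨T1, hT1⟩ := eventually_atTop.1 (h2.and (eventually_ge_atTop (1 : ℝ)))
    refine ⟨T1, fun T hT F hF => ?_⟩
    obtain ⟨h3, h4⟩ := hT1 T hT
    have hTp : 0 < T := by linarith
    have h5 := h T h4 F (fun ρ hρ => ⟨FF_zero (Zr_isZ hσ.le (hF ρ hρ)), (hF ρ hρ).2.1, by
      rw [abs_of_pos (hF ρ hρ).2.2.1]; exact (hF ρ hρ).2.2.2⟩)
    have h6 : ((∑ ρ ∈ F, analyticOrderNatAt riemannZeta ρ : ℕ) : ℝ) = ∑ ρ ∈ F, (H353.mu ρ : ℝ) := by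
      push_cast
      refine Finset.sum_congr rfl fun ρ hρ => ?_
      rw [mu_353 (Zr_isZ hσ.le (hF ρ hρ))]
      rfl
    rw [h6]
    refine h5.trans ?_
    have e1 : T ^ (4 * σ * (1 - σ) + e) = T ^ (e / 2) * T ^ (4 * σ * (1 - σ) + e / 2) := by
      rw [← Real.rpow_add hTp]; congr 1; ring
    rw [e1]
    exact mul_le_mul_of_nonneg_right h3 (Real.rpow_nonneg hTp.le _)
  · refine ⟨1, fun T hT F hF => ?_⟩
    have : F = ∅ := by
      refine Finset.eq_empty_of_forall_notMem fun ρ hρ => ?_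
      have h2 := hF ρ hρ
      exact riemannZeta_ne_zero_of_one_le_re (by rw [← h1]; exact h2.2.1) h2.1
    rw [this]
    simp only [Finset.sum_empty, Nat.cast_zero]
    exact Real.rpow_nonneg (by linarith) _

/-- the unconditional law -/
theorem carl_idx (h : S_Dn) {ψ : ℝ → ℝ} (hψ : EW.Bump ψ) : ∀ σ e : ℝ, 1 / 2 < σ → σ ≤ 1 → 0 < e → ∃ C0 : ℝ, ∀ C : ℝ, C0 ≤ C → ∃ A : ℝ, ∀ a : ℝ, A ≤ a →
    Idx ψ C a (σ - 1 / 2) ((Ht C a) ^ (4 * σ * (1 - σ) + e)) :=
  (h ψ hψ (fun σ => 4 * σ * (1 - σ)) (by fun_prop) (fun σ h0 h1 => by nlinarith)).1 carl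

end Pool.Agent.Q240.SD
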