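import Pool.Agent.Q240.SD.Fin
import Pool.Agent.Q240.SD.Carl
import Pool.Agent.Q130.SD.Cv
import Pool.Agent.Q193.SD.Psi
import Pool.Agent.Q38.SD.Pol
import Pool.Agent.Q204.SD.Gau
import Pool.Agent.Q68.SD.Tg
import Pool.Agent.Q211.SD.SzB
import Pool.Agent.Q285.SD.Lo2
import Pool.Agent.Q214.SD.Qp
import Pool.Agent.Q223.SD.Pk
import Pool.Agent.Q208.SD.Dw
import Pool.Agent.Q285.EW.Mul
import Pool.Agent.Q79.SD.Up
import Pool.Agent.Q26.SD.LoA
import Pool.Agent.Q31.SD.Dn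

/-!
# Project SD: the assembly of the parts
-/

set_option autoImplicit false

namespace Pool.Agent.Q240.SD

theorem a_cv : S_Cv := Q130.SD.cv

theorem a_szB : S_SzB := Q211.SD.szB Q193.SD.psi

theorem a_up : S_Up := Q79.SD.up a_cv Q193.SD.psi

theorem a_lo : S_Lo := Q285.SD.lo (Q26.SD.loA Q38.SD.pol) Q204.SD.gau Q193.SD.psi a_szB

theorem a_pk : S_Pk :=
  Q223.SD.pk a_lo Q68.SD.tg (Q214.SD.qp a_cv Q193.SD.psi a_szB) a_szB a_cv Q193.SD.psi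

theorem a_dw : S_Dw := Q208.SD.dw a_pk Q285.EW.mul a_cv

theorem a_dn : S_Dn := Q31.SD.dn a_up a_dw

end Pool.Agent.Q240.SD
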