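import Pool.Agent.Q240.SD.Stm

/-! # Project SD: the density hypothesis, pointwise and uniform -/

set_option autoImplicit false

open Filter Topology Finset MeasureTheory

namespace Pool.Agent.Q240.SD

open Pool.Agent.Y23 (TT Fa N2 QQ Zt mu IsZ)

lemma Zr_mono {σ σ' T : ℝ} (h : σ ≤ σ') : Zr σ' T ⊆ Zr σ T := fun _ hρ => ⟨hρ.1, h.trans hρ.2.1, hρ.2.2⟩

lemma AtMost.mono {S S' : Set ℂ} {B B' : ℝ} (h : AtMost S B) (hS : S' ⊆ S) (hB : B ≤ B') : AtMost S' B' :=
  fun F hF => (h F fun ρ hρ => hS (hF ρ hρ)).trans hB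

lemma Zr_isZ {σ T : ℝ} (hσ : 1 / 2 ≤ σ) {ρ : ℂ} (h : ρ ∈ Zr σ T) : IsZ ρ := by
  obtain ⟨h0, h1, h2, h3⟩ := h
  refine ⟨h0, by linarith, ?_⟩
  by_contra hc
  exact riemannZeta_ne_zero_of_one_le_re (not_lt.1 hc) h0

/-- all zeros -/
lemma all_le : ∃ K : ℝ, 0 < K ∧ ∀ T : ℝ, 1 ≤ T → AtMost (Zr (1 / 2) T) (K * T * Real.log (3 + 3 * T)) := by
  obtain ⟨K, hK, h⟩ := EW.cw
  refine ⟨K, hK, fun T hT F hF => ?_⟩
  refine h F 0 T T (fun ρ hρ => Zr_isZ le_rfl (hF ρ hρ)) (fun ρ hρ => ?_) hT (by rw [abs_zero]; linarith) le_rfl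
  have := hF ρ hρ
  rw [sub_zero, abs_of_pos this.2.2.1]
  exact this.2.2.2

/-- the density hypothesis -/
def DH : Prop := ∀ e : ℝ, 0 < e → ∃ C T0 : ℝ, 0 < C ∧ ∀ T σ : ℝ, T0 ≤ T → 1 / 2 ≤ σ → σ ≤ 1 → AtMost (Zr σ T) (C * T ^ (2 * (1 - σ) + e))

lemma all_le' (e : ℝ) (he : 0 < e) : ∃ T0 : ℝ, 1 ≤ T0 ∧ ∀ T : ℝ, T0 ≤ T → AtMost (Zr (1 / 2) T) (T ^ (1 + e)) := by
  obtain ⟨K, hK, h⟩ := all_le
  have h1 : Tendsto (fun T : ℝ => Real.log T / T ^ e) atTop (𝓝 0) := (isLittleO_log_rpow_atTop he).tendsto_div_nhds_zero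
  have h2 := (h1.eventually (gt_mem_nhds (show (0 : ℝ) < 1 / (2 * K) by positivity))).and (eventually_ge_atTop (6 : ℝ))
  obtain ⟨T0, hT0⟩ := eventually_atTop.1 h2
  refine ⟨max T0 6, (by norm_num : (1 : ℝ) ≤ 6).trans (le_max_right _ _), fun T hT => ?_⟩
  obtain ⟨h3, h4⟩ := hT0 T ((le_max_left _ _).trans hT)
  refine (h T (by linarith)).mono subset_rfl ?_
  have hTp : 0 < T := by linarith
  have hTe : 0 < T ^ e := Real.rpow_pos_of_pos hTp e
  rw [div_lt_iff₀ hTe] at h3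
  have h5 : Real.log (3 + 3 * T) ≤ 2 * Real.log T := by
    rw [show 2 * Real.log T = Real.log (T ^ 2) by rw [Real.log_pow]; norm_num]
    exact Real.log_le_log (by linarith) (by nlinarith)
  have h6 : K * Real.log (3 + 3 * T) ≤ T ^ e := by
    have : K * Real.log (3 + 3 * T) ≤ K * (2 * (1 / (2 * K) * T ^ e)) := by
      refine mul_le_mul_of_nonneg_left ?_ hK.le
      linarith
    refine this.trans (le_of_eq ?_)
    field_simp
  rw [Real.rpow_add hTp, Real.rpow_one]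
  calc K * T * Real.log (3 + 3 * T) = T * (K * Real.log (3 + 3 * T)) := by ring
    _ ≤ T * T ^ e := mul_le_mul_of_nonneg_left h6 hTp.le

/-- the density hypothesis, pointwise -/
lemma dh_iff : DH ↔ ∀ σ e : ℝ, 1 / 2 < σ → σ ≤ 1 → 0 < e → ∃ T0 : ℝ, ∀ T : ℝ, T0 ≤ T → AtMost (Zr σ T) (T ^ (2 * (1 - σ) + e)) := by
  constructor
  · intro h σ e hσ hσ1 he
    obtain ⟨C, T0, hC, h1⟩ := h (e / 2) (by linarith)
    have h2 := (tendsto_rpow_atTop (show 0 < e / 2 by linarith)).eventually_ge_atTop C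
    obtain ⟨T1, hT1⟩ := eventually_atTop.1 (h2.and (eventually_ge_atTop (1 : ℝ)))
    refine ⟨max T0 T1, fun T hT => (h1 T σ ((le_max_left _ _).trans hT) hσ.le hσ1).mono subset_rfl ?_⟩
    obtain ⟨h3, h4⟩ := hT1 T ((le_max_right _ _).trans hT)
    have hTp : 0 < T := by linarith
    have e1 : T ^ (2 * (1 - σ) + e) = T ^ (e / 2) * T ^ (2 * (1 - σ) + e / 2) := by
      rw [← Real.rpow_add hTp]; congr 1; ring
    rw [e1]
    exact mul_le_mul_of_nonneg_right h3 (Real.rpow_nonneg hTp.le _)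
  · intro h e he
    -- the grid
    obtain ⟨n, hn⟩ := exists_nat_gt (max (4 / e) 4)
    have hn0 : (0 : ℝ) < n := lt_of_lt_of_le (by positivity) ((le_max_right (4 / e) 4).trans hn.le)
    set k : ℝ := 1 / (2 * n) with hk
    have hk0 : 0 < k := by positivity
    have hke : k ≤ e / 4 := by
      have h1 : 4 / e < n := (le_max_left _ _).trans_lt hn
      rw [div_lt_iff₀ he] at h1
      rw [hk, div_le_iff₀ (by positivity)]
      nlinarith
    have hnk : n * k = 1 / 2 := by rw [hk]; field_simp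
    have h1 : ∀ i : ℕ, ∃ T0 : ℝ, 1 ≤ i → i ≤ n → ∀ T : ℝ, T0 ≤ T → AtMost (Zr (1 / 2 + i * k) T) (T ^ (2 * (1 - (1 / 2 + i * k)) + e / 2)) := by
      intro i
      by_cases hi : 1 ≤ i ∧ i ≤ n
      · have hi1 : (1 : ℝ) ≤ i := by exact_mod_cast hi.1
        have hi2 : (i : ℝ) ≤ n := by exact_mod_cast hi.2
        obtain ⟨T0, hT0⟩ := h (1 / 2 + i * k) (e / 2) (by nlinarith) (by nlinarith) (by linarith)
        exact ⟨T0, fun _ _ => hT0⟩
      · exact ⟨0, fun h2 h3 => absurd ⟨h2, h3⟩ hi⟩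
    choose t ht using h1
    obtain ⟨T1, hT1, h2⟩ := all_le' (e / 4) (by linarith)
    refine ⟨1, max T1 (∑ i ∈ Finset.range (n + 1), |t i|), one_pos, fun T σ hT hσ hσ1 => ?_⟩
    rw [one_mul]
    have hT1' : T1 ≤ T := (le_max_left _ _).trans hT
    have hTge : 1 ≤ T := hT1.trans hT1'
    have hTi : ∀ i, i ≤ n → t i ≤ T := by
      intro i hi
      refine (le_abs_self _).trans (le_trans ?_ ((le_max_right _ _).trans hT))
      exact Finset.single_le_sum (f := fun i => |t i|) (fun j _ => abs_nonneg _) (Finset.mem_range.2 (by omega))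
    rcases lt_or_ge σ (1 / 2 + k) with hc | hc
    · refine (h2 T hT1').mono (Zr_mono hσ) ?_
      exact Real.rpow_le_rpow_of_exponent_le hTge (by linarith)
    · set i : ℕ := ⌊(σ - 1 / 2) / k⌋₊ with hi
      have hpos : 0 ≤ (σ - 1 / 2) / k := by have : 0 ≤ σ - 1 / 2 := by linarith
                                            positivity
      have hi1 : (i : ℝ) ≤ (σ - 1 / 2) / k := Nat.floor_le hpos
      have hi2 : (σ - 1 / 2) / k < i + 1 := Nat.lt_floor_add_one _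
      rw [le_div_iff₀ hk0] at hi1
      rw [div_lt_iff₀ hk0] at hi2
      have hi3 : 1 ≤ i := by
        rw [hi, Nat.one_le_floor_iff, le_div_iff₀ hk0]
        linarith
      have hi4 : i ≤ n := by
        have : (i : ℝ) * k ≤ n * k := by linarith
        have := le_of_mul_le_mul_right this hk0
        exact_mod_cast this
      refine (ht i hi3 hi4 T (hTi i hi4)).mono (Zr_mono (by linarith)) ?_
      exact Real.rpow_le_rpow_of_exponent_le hTge (by nlinarith)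

end Pool.Agent.Q240.SD
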