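import Pool.Agent.Q240.SD.Dh
import Pool.Agent.Y23.We6

/-! # Project SD: Weil's form as an explicit expression, and the zero-free strips -/

set_option autoImplicit false

open Complex Filter Topology Finset MeasureTheory

namespace Pool.Agent.Q240.SD

open Pool.Agent.Y23 (TT Fa N2 QQ Zt mu IsZ)
open Pool.Agent.Q240.EW (Bump Ps)

/-- the correlations of a function on `[-b, b]` -/
lemma corr_zero {b : ℝ} {f : ℝ → ℂ} (hf : ∀ x : ℝ, b < |x| → f x = 0) {t : ℝ} (ht : 2 * b < t) :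
    ∫ x : ℝ, f (x + t) * (starRingEnd ℂ) (f x) = 0 := by
  have : (fun x : ℝ => f (x + t) * (starRingEnd ℂ) (f x)) = fun _ => 0 := by
    funext x
    rcases lt_or_ge b |x| with h | h
    · rw [hf x h, map_zero, mul_zero]
    · have h1 : b < |x + t| := by
        have h2 := (abs_le.1 h).1
        have h3 := le_abs_self (x + t)
        linarith
      rw [hf _ h1, zero_mul]
  rw [this, integral_zero]

/-- the explicit formula with the sum over all prime powers -/
lemma weil_tsum {b : ℝ} (hb : 0 < b) {f : ℝ → ℂ} (hf : Y23.Hd b f) :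
    QQ f = 2 * (TT f (1 / 2) * (starRingEnd ℂ) (TT f (-(1 / 2)))).re +
      1 / (2 * Real.pi) * (∫ v : ℝ, Y23.DG v * ‖TT f (v * I)‖ ^ 2) -
      2 * ∑' n : ℕ, ArithmeticFunction.vonMangoldt n / Real.sqrt n * (∫ x : ℝ, f (x + Real.log n) * (starRingEnd ℂ) (f x)).re := by
  rw [Y23.weil hb hf]
  congr 2
  refine (tsum_eq_sum fun n hn => ?_).symm
  rw [Finset.mem_Icc, not_and_or, not_le, not_le] at hn
  rcases hn with hn | hn
  · have : n = 0 := by omega
    subst this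
    simp
  · have h1 : Real.exp (2 * b) < n := Nat.lt_of_floor_lt hn
    have h2 : 2 * b < Real.log n := by
      rw [Real.lt_log_iff_exp_lt ((Real.exp_pos _).trans h1)]
      exact h1
    rw [corr_zero hf.1.2 h2, Complex.zero_re, mul_zero]

/-- no zeros off the strip -/
def Thin (θ : ℝ) : Prop := ∀ ρ : ℂ, riemannZeta ρ = 0 → 0 < ρ.re → ρ.re ≤ θ

/-- **the strips free of zeros** -/
theorem thin_iff (h1 : S_Up) (h2 : S_Dw) {ψ : ℝ → ℝ} (hψ : Bump ψ) {θ : ℝ} (hθ : 1 / 2 ≤ θ) (hθ1 : θ < 1) :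
    Thin θ ↔ ∀ δ : ℝ, 0 < δ → ∃ C0 : ℝ, ∀ C : ℝ, C0 ≤ C → ∃ A : ℝ, ∀ a : ℝ, A ≤ a → ∀ g : ℝ → ℂ, Fa a g →
      -(Real.exp (2 * a * (θ - 1 / 2 + δ)) * N2 g) ≤ QQ (Sg ψ (Ht C a) g) := by
  constructor
  · intro h δ hδ
    set d : ℝ := min δ (1 - θ) with hd
    have hd0 : 0 < d := lt_min hδ (by linarith)
    obtain ⟨C0, h3⟩ := h1 ψ d hψ hd0
    refine ⟨C0, fun C hC => ?_⟩
    obtain ⟨A, h4⟩ := h3 C hC
    refine ⟨max A 0, fun a ha g hg => ?_⟩
    have hA : A ≤ a := (le_max_left _ _).trans ha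
    have ha0 : 0 ≤ a := (le_max_right _ _).trans ha
    have hd1 : d ≤ 1 - θ := min_le_right _ _
    have h5 := h4 a (θ - 1 / 2 + d) hA (by linarith) (by linarith) g hg (fun ρ hρ _ => by
      exfalso
      have h6 := h ρ ρ.2.1 ρ.2.2.1
      have h7 := (le_max_left (θ - 1 / 2 + d - d) 0).trans_lt hρ
      linarith)
    refine le_trans (neg_le_neg ?_) h5
    refine mul_le_mul_of_nonneg_right (Real.exp_le_exp.2 ?_) (Y23.N2_nonneg g)
    have : d ≤ δ := min_le_left _ _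
    exact mul_le_mul_of_nonneg_left (by linarith) (by linarith)
  · intro h ρ h0 hρ
    by_contra hc
    rw [not_le] at hc
    have hρ1 : ρ.re < 1 := by
      by_contra hc1
      exact riemannZeta_ne_zero_of_one_le_re (not_lt.1 hc1) h0
    set d : ℝ := (ρ.re - θ) / 2 with hd
    have hd0 : 0 < d := by rw [hd]; linarith
    have hd1 : d ≤ 1 / 2 := by rw [hd]; linarith
    obtain ⟨C0, h3⟩ := h d hd0
    obtain ⟨C1, C2, hC2, h4⟩ := h2 ψ d hψ hd0 hd1
    set C : ℝ := max (max C0 C1) 1 with hC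
    have hCp : 0 < C := lt_of_lt_of_le one_pos (le_max_right _ _)
    obtain ⟨A0, h5⟩ := h3 C ((le_max_left _ _).trans (le_max_left _ _))
    obtain ⟨A1, h6⟩ := h4 C ((le_max_right _ _).trans (le_max_left _ _))
    set a : ℝ := max (max A0 A1) (C * |ρ.im|) with ha
    have hTa : |ρ.im| ≤ Ht C a := by
      unfold Ht
      have h7 : |ρ.im| ≤ 2 * a / C := by
        rw [le_div_iff₀ hCp]
        have h8 : C * |ρ.im| ≤ a := le_max_right _ _
        have h9 : 0 ≤ C * |ρ.im| := by positivity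
        linarith
      linarith [Real.add_one_le_exp (2 * a / C)]
    have h8 := h6 a (θ - 1 / 2 + d) ((le_max_right _ _).trans (le_max_left _ _)) (by linarith) 0 (fun j => j.elim0)
      (fun g hg _ => h5 a ((le_max_left _ _).trans (le_max_left _ _)) g hg) {ρ} (fun r hr => by
        rw [Finset.mem_singleton] at hr
        subst hr
        refine ⟨⟨h0, hρ, hρ1⟩, ?_, hTa⟩
        have e : θ - 1 / 2 + d + d = r.re - 1 / 2 := by rw [hd]; ring
        rw [e]
        exact le_abs_self _)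
    rw [Finset.sum_singleton] at h8
    have h9 : 1 ≤ mu ρ := Y23.mu_pos ⟨h0, hρ, hρ1⟩
    have h10 : (1 : ℝ) ≤ mu ρ := by exact_mod_cast h9
    simp only [Nat.cast_zero, mul_zero] at h8
    linarith

/-- the index criterion for the density hypothesis -/
theorem dh_idx (h : S_Dn) {ψ : ℝ → ℝ} (hψ : Bump ψ) : DH ↔ ∀ σ e : ℝ, 1 / 2 < σ → σ ≤ 1 → 0 < e → ∃ C0 : ℝ, ∀ C : ℝ, C0 ≤ C → ∃ A : ℝ, ∀ a : ℝ, A ≤ a →
    Idx ψ C a (σ - 1 / 2) ((Ht C a) ^ (2 * (1 - σ) + e)) := by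
  rw [dh_iff]
  exact h ψ hψ (fun σ => 2 * (1 - σ)) (by fun_prop) (fun σ _ h1 => by linarith)

end Pool.Agent.Q240.SD
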