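import Pool.Agent.Q240.EW.Cw
import Pool.Agent.Q240.EW.Stm3

set_option autoImplicit false

/-!
# Project SD (spectral density law for Weil's form): definitions and statements of the lemma jobs

Every statement is a `def S_xxx : Prop`; prove `theorem xxx : S_xxx` in a file of your own (hypotheses `h1 : S_yyy` of the other statements may be used; say so).
Library: `Pool.Agent.Y23` (import `Pool.Agent.Y23.Z.F6`, `Pool.Agent.Y23.We6`): `TT f w = ∫ f x exp (w x)`, `Fa a f` (square integrable, zero off `[-a, a]`), `N2 f`, `QQ f = ∑' ρ : Zt, mu ρ * Re (GG f f (ρ - 1/2))` (Weil's form as a sum over the zeros),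
`GG f g w = TT f w * conj (TT g (- conj w))`, `norm_TT_le`, `half_re`, `rfZ`, `rfZ_sub`, `mu_rfZ`, `mu_conj`, `zsummable`, `zsum_le` (`Lg t = log (3 + |t|)`), `isZ_finite`, `mu_pos`; `G.F.Hn a ν f`, `Hn.hd`, `Hn.mono`...; `G.conv_TT` (`Y23/G/Ts4.lean`); `Pool.Agent.Q240.EW`: `Bump ψ`, `Ps ψ w = TT ψ w` (`EW/Stm.lean`),
`cw` (`EW/Cw.lean`: number of the zeros in a window), `S_Mul` (`EW/Stm3.lean`, proved in `Q285/EW/Mul.lean`), `GG_sum` (`EW/Core.lean`); `Q79/EW/Gn.lean` (`bump_sm`, `Ps_decay`, `scaled`, `modul`), `Sm.decay` (`Q214/PR/SmA.lean`), `real_prod` (`Q240/QS/MinMod.lean`).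

THEOREM. `X = exp (2 a) = T ^ C`. Weil's form, smoothed at the scale `1 / T`, is `≥ - X ^ η N` on the kernel of the functionals given by the zeros with `Re ρ > 1/2 + η - δ`, `|Im ρ| ≤ T ^ (1 + δ)`; and if it is `≥ - X ^ η N` on the kernel of `m` linear forms, there are at most `C1 a² m` zeros with
`Re ρ ≥ 1/2 + η + δ`, `|Im ρ| ≤ T`. So the number of its eigenvalues below `- X ^ (σ - 1/2)` is `N(σ, T)` up to `T ^ δ`.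
-/

open Filter Topology Finset MeasureTheory

namespace Pool.Agent.Q240.SD

open Pool.Agent.Y23 (TT Fa N2 QQ Zt mu)
open Pool.Agent.Q240.EW (Bump Ps)

/-! ### Definitions -/

/-- the convolution with `T ψ(T x)` (an approximation of the identity: smoothing at the scale `1 / T`) -/
noncomputable def Sg (ψ : ℝ → ℝ) (T : ℝ) (g : ℝ → ℂ) (x : ℝ) : ℂ := ∫ y : ℝ, g y * ((T * ψ (T * (x - y)) : ℝ) : ℂ)

/-- the height `T` with `T ^ C = exp (2 a)` -/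
noncomputable def Ht (C a : ℝ) : ℝ := Real.exp (2 * a / C)

/-- the smoothed sum over the zeros (`w = ρ - 1/2`) -/
noncomputable def Sz (ψ : ℝ → ℝ) (T s t u : ℝ) : ℂ :=
  ∑' ρ : Zt, (mu ρ : ℂ) * (Ps ψ (((ρ : ℂ) - 1 / 2) / T) ^ 2 * Complex.exp (s * (((ρ : ℂ) - 1 / 2) - t * Complex.I) ^ 2 + u * ((ρ : ℂ) - 1 / 2)))

/-- the transform of a pair of Gaussian packets at `b` and `-b` -/
noncomputable def Mn (s t b : ℝ) (c w : ℂ) : ℂ :=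
  (Real.sqrt (2 * Real.pi * s) : ℂ) * Complex.exp (s * (w - t * Complex.I) ^ 2 / 2) * (Complex.exp (b * (w - t * Complex.I)) + c * Complex.exp (-(b * (w - t * Complex.I))))

/-! ### 1. Tools (no zeros) -/

/-- **Cv**: the smoothing operator.
Proof. `G.conv_TT` gives a function with this transform, but here we want the explicit convolution: Fubini (`integral_integral_swap`, or `MeasureTheory.convolution` with `ContinuousLinearMap.mul`, `integral_convolution`; see the proof of `conv_TT` in `Y23/G/Ts4.lean`): `∫ T ψ(T x) exp (w x) dx = Ps ψ (w / T)` (`scaled` in `Q79/EW/Gn.lean`). Support: `T |x - y| < 1`, `|y| ≤ a`.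
`L²`: bounded (`‖g‖_1 T sup ψ`) with compact support, measurable (`conv_TT` does this). `Lg v * ‖TT (Sg g) (v I)‖²`: `‖TT g (v I)‖² ≤ 2 a N2 g` (`norm_TT_le`) and `‖Ps ψ (v I / T)‖ ≤ C / (1 + |v| / T)^6` (`Ps_decay`). With `ν = ⊤` there is no condition on the nodes. Linearity: `integral_finset_sum` (each `g i` is integrable, `ψ` is bounded and continuous). -/
def S_Cv : Prop := ∀ (ψ : ℝ → ℝ) (T : ℝ), Bump ψ → 0 < T →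
  (∀ (a : ℝ) (g : ℝ → ℂ) (w : ℂ), 0 < a → Fa a g → TT (Sg ψ T g) w = Ps ψ (w / T) * TT g w) ∧
  (∀ (a : ℝ) (g : ℝ → ℂ), 0 < a → Fa a g → Y23.G.F.Hn (a + 1 / T) ⊤ (Sg ψ T g)) ∧
  ∀ (a : ℝ) (m : ℕ) (c : Fin m → ℂ) (g : Fin m → ℝ → ℂ), 0 < a → (∀ i, Fa a (g i)) → Sg ψ T (fun x => ∑ i, c i * g i x) = fun x => ∑ i, c i * Sg ψ T (g i) x

/-- **Psi**: the transform of a bump function.
Proof. Even and real: substitution, conjugation. `‖Ps ψ w‖ ≤ ∫ ψ exp (|Re w|)`. Decay: `bump_sm` and `Sm.decay` (as in `Ps_decay`, any `k`; for `k = 0` trivial). For `w = x + i v`: `Ps ψ w = ∫ ψ y (cosh (x y) cos (v y) + i sinh (x y) sin (v y)) dy` by evenness; for `|v| ≤ 21/20`, `|y| ≤ 1` `cos (v y) ≥ cos (21/20) ≥ 0.49`,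
(or just `1 - x²/2 ≥ 0.448`, `0.448² ≥ 0.2`), `cosh ≥ 1`, `|Im| ≤ sinh (1/20) ≤ 0.06`, so `Re (Ps²) = Re² - Im² ≥ 0.24 - 0.004 ≥ 1/6`; `‖Ps ψ w‖ ≤ ∫ ψ y exp (x y) dy = ∫ ψ y cosh (x y) dy ≤ cosh (1/20) ≤ 1.005`. -/
def S_Psi : Prop := ∀ ψ : ℝ → ℝ, Bump ψ →
  (∀ w : ℂ, Ps ψ (-w) = Ps ψ w) ∧ (∀ w : ℂ, Ps ψ ((starRingEnd ℂ) w) = (starRingEnd ℂ) (Ps ψ w)) ∧ (∀ w : ℂ, ‖Ps ψ w‖ ≤ Real.exp |w.re|) ∧
  (∀ k : ℕ, ∃ C : ℝ, 0 < C ∧ ∀ w : ℂ, |w.re| ≤ 1 → ‖Ps ψ w‖ ≤ C / (1 + ‖w‖) ^ k) ∧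
  ∀ w : ℂ, |w.re| ≤ 1 / 20 → |w.im| ≤ 21 / 20 → 1 / 6 ≤ (Ps ψ w ^ 2).re ∧ ‖Ps ψ w ^ 2‖ ≤ 51 / 50

/-- **Pol**: interpolation of the indicator of a disc. Self-contained.
Proof. `N = card Z`, `ω ζ = ∏_{z ∈ Z} (ζ - z)`, a polynomial. By `real_prod` (with `ρ / 2`, for the multiset of the `‖z - z0‖`) there is `r ∈ [ρ/2, ρ]` with `∏ |r - ‖z - z0‖| ≥ (ρ / 8)^N` (so no `‖z - z0‖ = r`), hence `|ω ζ| ≥ (ρ / 8)^N` on the circle `|ζ - z0| = r`. Let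
`P z = (1 / 2 π i) ∮_{|ζ - z0| = r} ζ^(-M) (ω ζ - ω z) / ((ζ - z) ω ζ) dζ = ∑_{k < N} c_k z^k`, where `(ω ζ - ω z) / (ζ - z) = ∑_{k < N} z^k q_k ζ`, `q_k ζ = ∑_{l > k} ω_l ζ^(l - 1 - k)` (`ω_l` the coefficients), so `c_k = (1 / 2 π i) ∮ ζ^(-M) q_k ζ / ω ζ dζ`.
(For the algebra: `ω.divX` iterated, or define `q_k` and prove `(ζ - z) ∑_k z^k q_k ζ = ω ζ - ω z` by induction/`geom_sum`: `ζ^l - z^l = (ζ - z) ∑_{k < l} z^k ζ^(l-1-k)` (`Commute.geom_sum₂_mul`).) For `z = z_j ∈ Z`: `ω z_j = 0`, so `P z_j = (1 / 2 π i) ∮ ζ^(-M) / (ζ - z_j) dζ`, which is `z_j^(-M)` if `‖z_j - z0‖ < r`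
(Cauchy's formula `Complex.circleIntegral_sub_inv_smul_of_differentiable_on_off_countable` or `DiffContOnCl.circleIntegral_sub_inv_smul`; `ζ^(-M)` is holomorphic on the closed disc because `r < ‖z0‖`) and `0` if `‖z_j - z0‖ > r` (Cauchy's theorem). Bound: `∑_k |q_k ζ| ≤ ∑_l |ω_l| 3^l ≤ 5^N` as `|ζ| ≤ 3` and `|ω_l|` is at most the
coefficient of `∏ (X + 2)`; `|ζ|^(-M) ≤ (‖z0‖ - ρ)^(-M)`; `|∮| ≤ 2 π r sup` (`circleIntegral.norm_integral_le_of_norm_le_const`), `r ≤ 1`. -/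
def S_Pol : Prop := ∀ (Z : Finset ℂ) (z0 : ℂ) (ρ : ℝ) (M : ℕ), z0 ∈ Z → (∀ z ∈ Z, ‖z‖ ≤ 2) → 0 < ρ → ρ ≤ 1 / 2 → ρ < ‖z0‖ →
  ∃ (r : ℝ) (c : ℕ → ℂ), ρ / 2 ≤ r ∧ r ≤ ρ ∧ (∀ z ∈ Z, z ^ M * ∑ k ∈ Finset.range Z.card, c k * z ^ k = if ‖z - z0‖ < r then 1 else 0) ∧
    ∑ k ∈ Finset.range Z.card, ‖c k‖ ≤ (40 / ρ) ^ Z.card * (1 / (‖z0‖ - ρ)) ^ M

/-- **Gau**: the truncated Gaussian integral. Self-contained.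
Proof. `∫_ℝ exp (s (w - i t)²) dt = ∫_ℝ exp (- s (t + i w)²) dt = sqrt (π / s)` (`GaussianFourier.integral_cexp_neg_mul_sq_add_const` or `integral_cexp_neg_mul_sq_add_real_mul_I`). The tails: `‖exp (s (w - i t)²)‖ = exp (s ((Re w)² - (Im w - t)²))`, and for `|t| ≥ 1` `(Im w - t)² ≥ (7/8)² t² ≥ (3/4) t²`, so it is at most
`exp (s / 4 - 3 s t² / 4) ≤ exp (- s / 4) exp (- s t² / 4)`; `∫ exp (- s t² / 4) dt = 2 sqrt (π / s)`. -/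
def S_Gau : Prop := ∃ s0 : ℝ, 0 < s0 ∧ ∀ (s : ℝ) (w : ℂ), s0 ≤ s → |w.re| ≤ 1 / 2 → |w.im| ≤ 1 / 8 →
  ‖(∫ t in (-1 : ℝ)..1, Complex.exp (s * (w - t * Complex.I) ^ 2)) - (Real.sqrt (Real.pi / s) : ℂ)‖ ≤ Real.sqrt (Real.pi / s) / 10

/-- **Tg**: the packets.
Proof. `g x = exp (- i t x) (exp (- (x - b)² / (2 s)) + c exp (- (x + b)² / (2 s)))` for `|x| ≤ a`, `0` outside. The integral of `exp (- (x - b)² / (2 s) + z x)` over `ℝ` is `sqrt (2 π s) exp (z b + s z² / 2)`, `z = w - i t` (substitute and `integral_cexp_quadratic` or the Gaussian Fourier integrals in Mathlib). Tail: for `|x| = a + y`, `y > 0`: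
`||x| - b| ≥ 2 ε a + y`, `(2 ε a + y)² / (2 s) ≥ 2 ε² a² / s + 2 ε a y / s ≥ 16 a + 16 y` (`s = ε² a / 8`, `ε ≤ 1`), so both tails together are at most `4 ∫_0^∞ exp (- 16 a - 16 y + a + y) dy ≤ exp (- 15 a)`. `‖g x‖² ≤ 2 exp (- (x - b)² / s) + 2 exp (- (x + b)² / s)`, so `N2 g ≤ 4 sqrt (π s) ≤ a` for large `a`. -/
def S_Tg : Prop := ∀ ε : ℝ, 0 < ε → ε ≤ 1 / 4 → ∃ A : ℝ, ∀ (a t b : ℝ) (c : ℂ), A ≤ a → ‖c‖ = 1 → 0 ≤ b → b ≤ (1 - 2 * ε) * a →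
  ∃ g : ℝ → ℂ, Fa a g ∧ N2 g ≤ a ∧ ∀ w : ℂ, |w.re| ≤ 1 → ‖TT g w - Mn (ε ^ 2 / 8 * a) t b c w‖ ≤ Real.exp (-(15 * a))

/-! ### 2. Sums over the zeros -/

/-- **SzB**: the sum `Sz` converges absolutely. Uses `S_Psi` (third item).
Proof. `|Re (w / T)| ≤ 1/20`, so `‖Ps ψ (w / T)‖² ≤ 2`; `‖exp (s (w - i t)² + u w)‖ = exp (s ((Re w)² - (Im w - t)²) + u Re w) ≤ exp (s / 4 + u / 2) exp (- 2 (Im w - t)²) ≤ exp (s / 4 + u / 2) / (1 + (Im w - t)²)`; `zsummable`, `zsum_le` (`Im w = Im ρ`). -/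
def S_SzB : Prop := ∃ K : ℝ, 0 < K ∧ ∀ (ψ : ℝ → ℝ) (T s t u : ℝ), Bump ψ → 10 ≤ T → 2 ≤ s → 0 ≤ u →
  (Summable fun ρ : Zt => (mu ρ : ℝ) * ‖Ps ψ (((ρ : ℂ) - 1 / 2) / T) ^ 2 * Complex.exp (s * (((ρ : ℂ) - 1 / 2) - t * Complex.I) ^ 2 + u * ((ρ : ℂ) - 1 / 2))‖) ∧
  ‖Sz ψ T s t u‖ ≤ K * Real.exp (s / 4 + u / 2) * Real.log (3 + |t|)

/-- **LoA**: the choice of the coefficients. Uses `S_Pol`, `cw`.
Proof. `w0 = ρ0 - 1/2`, `γ = Im ρ0`, `T = Ht C a`, `h = 1 / (V + 1)`. The zeros with `|Im ρ - γ| ≤ V` are finite in number (`isZ_finite`), `Z` = the set of the `z = exp (h w)`, `N = card Z ≤ ∑ mu ≤ K V log (3 + 3 (T + V)) ≤ K' a / C` (`cw`, `mu_pos`; `log T = 2 a / C`; `A` may depend on `C`). `‖z‖ ≤ exp (h / 2) ≤ 2`, `z0 = exp (h w0)`, `‖z0‖ = exp (h Re w0) ≥ 1`.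
`S_Pol` with `ρ = h δ / 32`, `M = ⌈2 (1 - 3 δ / 16) a / h⌉`. For `w` in the window with `‖z - z0‖ < r ≤ h δ / 32`: `‖exp (h (w - w0)) - 1‖ ≤ h δ / 32`; `‖h (w - w0)‖ ≤ h sqrt (V² + 1) ≤ 1`, and `‖exp y - 1‖ ≥ ‖y‖ - ‖y‖² ... ≥ ‖y‖ / 4` for `‖y‖ ≤ 1` (`Complex.norm_exp_sub_one_sub_id_le` gives only `‖y‖²`; use `Complex.norm_exp_sub_sum_le_norm_mul_exp`
or `‖exp y - 1 - y‖ ≤ ‖y‖² (e - 2)`, `Complex.exp_bound`) give `‖w - w0‖ ≤ δ / 8 ≤ 1/8`. The sum: `‖z0‖ - ρ ≥ exp (h Re w0) (1 - h δ / 32) ≥ exp (h (Re w0 - δ / 16))`, so `∑ ‖c_k‖ ≤ (1280 / (h δ))^N exp (- h M (Re w0 - δ / 16))`, `(1280 / (h δ))^N ≤ exp (δ a / 8)` if `C` is large; `2 (1 - 3 δ / 16) a ≤ h M ≤ 2 a`, so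
`h M (Re w0 - δ / 16) ≥ 2 a (Re w0 - 5 δ / 32)` (two cases: the sign of `Re w0 - δ / 16`; `Re w0 ≤ 1/2`). `h (M + N) ≤ 2 (1 - 3 δ / 16) a + h (N + 1) ≤ 2 (1 - 2 δ / 16) a` for large `C`, `a`. -/
def S_LoA : Prop := ∀ δ V : ℝ, 0 < δ → δ ≤ 1 / 2 → 2 ≤ V → ∃ C0 : ℝ, ∀ C : ℝ, C0 ≤ C → ∃ A : ℝ, ∀ a : ℝ, A ≤ a →
  ∀ ρ0 : Zt, 1 / 2 ≤ (ρ0 : ℂ).re → |(ρ0 : ℂ).im| ≤ Ht C a → ∃ (M N : ℕ) (c : ℕ → ℂ) (r : ℝ), 0 < r ∧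
    2 * (1 - 3 * δ / 16) * a ≤ M / (V + 1) ∧ (M + N) / (V + 1) ≤ 2 * (1 - 2 * δ / 16) * a ∧
    (∀ ρ : Zt, |(ρ : ℂ).im - (ρ0 : ℂ).im| ≤ V → Complex.exp (M * ((ρ : ℂ) - 1 / 2) / (V + 1)) * ∑ k ∈ Finset.range N, c k * Complex.exp (k * ((ρ : ℂ) - 1 / 2) / (V + 1)) =
      if ‖Complex.exp (((ρ : ℂ) - 1 / 2) / (V + 1)) - Complex.exp (((ρ0 : ℂ) - 1 / 2) / (V + 1))‖ < r then 1 else 0) ∧
    (∀ ρ : Zt, |(ρ : ℂ).im - (ρ0 : ℂ).im| ≤ V → ‖Complex.exp (((ρ : ℂ) - 1 / 2) / (V + 1)) - Complex.exp (((ρ0 : ℂ) - 1 / 2) / (V + 1))‖ < r → ‖(ρ : ℂ) - (ρ0 : ℂ)‖ ≤ 1 / 8) ∧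
    ∑ k ∈ Finset.range N, ‖c k‖ ≤ Real.exp (-(2 * a * ((ρ0 : ℂ).re - 1 / 2 - δ / 4)))

/-- **Lo**: the lower bound. Uses `S_LoA`, `S_Gau`, `S_Psi`, `S_SzB`.
Proof. `w0 = ρ0 - 1/2`, `γ = Im ρ0`, `T = Ht C a`, `s = l a`. Let `V = 2 + 4 / sqrt l` or larger with `l (V - 1)² ≥ 16`, `h = 1 / (V + 1)`; `M, N, c, r` from `S_LoA`; `G` = the (finite) set of the zeros of the window `|Im ρ - γ| ≤ V` with `‖exp (h w) - exp (h w0)‖ < r` (contains `ρ0`, as `0 < r`). For `t ∈ [γ - 1, γ + 1]`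
`∑_{k < N} c_k Sz(u_k) = ∑_ρ mu p exp (s (w - i t)²) exp (h M w) ∑_k c_k exp (h k w)`, `u_k = (M + k) h`, `p = Ps ψ (w / T)²` (`tsum` of finite sums; summable by `S_SzB`) `= F t + E t`, `F t = ∑_{ρ ∈ G} mu p exp (s (w - i t)²)`, `E t` = the sum over `|Im ρ - γ| > V`.
`E`: `|Im w - t| ≥ V - 1`, `‖exp (s (w - i t)²)‖ ≤ exp (s / 4) exp (- s (Im w - t)² / 2) exp (- 8 a) ≤ exp (s / 4 - 8 a) / (1 + (Im w - t)²)`, `‖p‖ ≤ 2`, the last factors are at most `exp (h (M + N) / 2) ∑ ‖c_k‖ ≤ exp (2 a)` (`∑ ‖c_k‖ ≤ exp (a δ / 2)`), `zsum_le`: `‖E t‖ ≤ exp (- 4 a)` for large `a` (`s ≤ a`, `log (3 + |t|) ≤ log (4 + T)`). `F`: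
`∫_{γ-1}^{γ+1} F = ∑_{ρ ∈ G} mu p ∫_{-1}^{1} exp (s ((w - i γ) - i t')²) dt'`; by `S_Gau` (`|Re| ≤ 1/2`, `|Im (w - i γ)| ≤ 1/8`) and `Re p ≥ 1/6`, `‖p‖ ≤ 51/50` (`S_Psi`: `|Re (w / T)| ≤ 1/20`, `|Im (w / T)| ≤ 1 + 1/(8 T) ≤ 21/20`) the real part of the integral is at least `(1/6 - 0.102) sqrt (π / s) ∑ mu ≥ (1/20) sqrt (π / s)` (`mu ρ0 ≥ 1`). So `‖F t‖ ≥ (1/40) sqrt (π / s)`
for some `t ∈ [γ - 1, γ + 1]` (otherwise the integral is smaller), hence `‖∑_k c_k Sz(u_k)‖ ≥ 1 / (80 sqrt s)`, and for some `k < N` `‖Sz(u_k)‖ ≥ 1 / (80 sqrt s ∑ ‖c_k‖) ≥ exp (2 a (Re w0 - δ / 4)) / (80 sqrt s) ≥ exp (2 a (Re w0 - δ / 2))`. `b = u_k / 2`, `h M / 2 ≤ b ≤ h (M + N) / 2`. -/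
def S_Lo : Prop := ∀ (ψ : ℝ → ℝ) (δ l : ℝ), Bump ψ → 0 < δ → δ ≤ 1 / 2 → 0 < l → l ≤ 1 → ∃ C0 : ℝ, ∀ C : ℝ, C0 ≤ C → ∃ A : ℝ, ∀ a : ℝ, A ≤ a →
  ∀ ρ0 : Zt, 1 / 2 ≤ (ρ0 : ℂ).re → |(ρ0 : ℂ).im| ≤ Ht C a → ∃ t b : ℝ, |t - (ρ0 : ℂ).im| ≤ 1 ∧ (1 - 3 * δ / 16) * a ≤ b ∧ b ≤ (1 - 2 * δ / 16) * a ∧
    Real.exp (2 * a * ((ρ0 : ℂ).re - 1 / 2 - δ / 2)) ≤ ‖Sz ψ (Ht C a) (l * a) t (2 * b)‖

/-- **Qp**: Weil's form of a pair of packets. Uses `S_Cv`, `S_Psi`, `S_SzB`.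
Proof. `w = ρ - 1/2`, `z = w - i t`, `p = Ps ψ (w / T)²`. `GG (Sg g) (Sg g) w = Ps ψ (w / T) TT g w conj (Ps ψ (- conj w / T) TT g (- conj w)) = p TT g w conj (TT g (- conj w))` (`S_Psi`: even, conjugation). `TT g = Mn + err`, `‖err‖ ≤ exp (- 15 a)`, `‖Mn‖ ≤ sqrt (2 π s) exp (s / 8) 2 exp (b / 2) ≤ exp (2 a)` (`|Re w| ≤ 1/2`, `Re (z²) ≤ 1/4`).
`Mn w conj (Mn (- conj w)) = 2 π s exp (s z²) (exp (b z) + c exp (- b z)) (exp (- b z) + conj c exp (b z)) = 2 π s exp (s z²) (2 + conj c exp (2 b z) + c exp (- 2 b z))`. (For `w' = - conj w` we have `z' = - conj z`.) By the reflection `rfZ` (`z` becomes `- conj z`, `p` becomes `conj p`, `mu` is the same):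
`∑ mu Re (p exp (s z²) c exp (- 2 b z)) = ∑ mu Re (p exp (s z²) conj c exp (2 b z))`. And `exp (s z²) exp (2 b z) = exp (s z² + 2 b w) exp (- 2 b i t)`. So the sum of the main terms is `4 π s (Re Sz(0) + Re (conj c exp (- 2 i b t) Sz(2 b)))`. Errors: `∑ mu ‖p‖ 3 exp (2 a - 15 a)`, `‖p‖ ≤ K / (1 + ‖w / T‖)² ≤ K T² / (1 + ‖w‖)² ≤ K T² / (1 + (Im ρ)²)`, `zsum_le`:
at most `exp (- 10 a)` for large `a` (`T² = exp (4 a / C) ≤ exp a`). `10 ≤ T` for large `a`. -/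
def S_Qp : Prop := ∀ (ψ : ℝ → ℝ) (C : ℝ), Bump ψ → 4 ≤ C → ∃ A : ℝ, ∀ (a s t b : ℝ) (c : ℂ) (g : ℝ → ℂ), A ≤ a → 2 ≤ s → s ≤ a → 0 ≤ b → b ≤ a → ‖c‖ = 1 → Fa a g →
  (∀ w : ℂ, |w.re| ≤ 1 → ‖TT g w - Mn s t b c w‖ ≤ Real.exp (-(15 * a))) →
    QQ (Sg ψ (Ht C a) g) ≤ 4 * Real.pi * s * (‖Sz ψ (Ht C a) s t 0‖ +
      ((starRingEnd ℂ) c * (Complex.exp (-(2 * b * t * Complex.I)) * Sz ψ (Ht C a) s t (2 * b))).re) + Real.exp (-(10 * a))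

/-- **Pk**: the trial functions. Uses `S_Lo`, `S_Tg`, `S_Qp`, `S_SzB`, `S_Cv`, `S_Psi`.
Proof. `ε = δ / 16`, `l = ε² / 8`, `s = l a`; `t, b` from `S_Lo`; `S = exp (- 2 i b t) Sz(2 b)` with `‖S‖ ≥ X^(η - δ/2)`, `η = Re ρ0 - 1/2 ≥ δ`, `X = exp (2 a)`; `c = - S / ‖S‖`, so `conj c * S = - ‖S‖`; `g` from `S_Tg`. `S_SzB`: `‖Sz(0)‖ ≤ K exp (s / 4) log (3 + |t|) ≤ exp (a δ / 4) ≤ X^(η - δ/2) / 2` for large `a` (`s / 4 = δ² a / 8192`, `|t| ≤ T + 1`,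
`log T = 2 a / C`). So `QQ ≤ 4 π s (- X^(η - δ/2) / 2) + exp (- 10 a) ≤ - X^(η - 3 δ / 4)`. Decay: `‖TT (Sg g) w‖ ≤ ‖Ps ψ (w / T)‖ (‖Mn w‖ + exp (- 15 a))`; `‖Mn w‖ ≤ sqrt (2 π s) exp (s / 8 - s y² / 2) 2 exp (a / 2)`, `y = Im w - t`, `s y² / 2 ≥ y² ≥ |y| - 1/4 ≥ |Im w - γ| - 5/4`, `‖Ps‖ ≤ 2`: the first part is at most `exp (3 a) exp (- |Im w - γ|)`;
`‖Ps ψ (w / T)‖ ≤ K / (1 + ‖w‖ / T)² ≤ K T² / (1 + ‖w‖)²`, `K T² ≤ exp (2 a)`: the second is at most `exp (- 13 a) / (1 + ‖w‖)²`. -/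
def S_Pk : Prop := ∀ (ψ : ℝ → ℝ) (δ : ℝ), Bump ψ → 0 < δ → δ ≤ 1 / 2 → ∃ C0 : ℝ, ∀ C : ℝ, C0 ≤ C → ∃ A : ℝ, ∀ a : ℝ, A ≤ a →
  ∀ ρ0 : Zt, 1 / 2 + δ ≤ (ρ0 : ℂ).re → |(ρ0 : ℂ).im| ≤ Ht C a → ∃ g : ℝ → ℂ, Fa a g ∧ N2 g ≤ a ∧ QQ (Sg ψ (Ht C a) g) ≤ -Real.exp (2 * a * ((ρ0 : ℂ).re - 1 / 2 - 3 * δ / 4)) ∧
    ∀ ρ : Zt, ‖TT (Sg ψ (Ht C a) g) ((ρ : ℂ) - 1 / 2)‖ ≤ Real.exp (3 * a) * (Real.exp (-(1 * |(ρ : ℂ).im - (ρ0 : ℂ).im|)) + Real.exp (-(16 * a)) / (1 + ‖(ρ : ℂ) - 1 / 2‖) ^ 2)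

/-! ### 3. The two inequalities -/

/-- **Dw**: few negative directions, few zeros. Uses `S_Pk`, `S_Mul` (`Q240/EW/Stm3.lean`), `S_Cv`, `cw`. The model is `Q208/EW/Fin3.lean` (choice of separated zeros, kernel of `m` forms in dimension `m + 1`, `S_Mul`) and `Q240/EW/Ew4.lean` (the counting).
Proof. By the reflection `ρ ↦ 1 - conj ρ` (`mu_refl`) let `Re ρ ≥ 1/2 + η + δ` (factor `2`). If there are `m + 1` such zeros `ρ_i`, `|Im ρ_i| ≤ T`, with imaginary parts at mutual distance `≥ R = 33 a`, take `g_i` from `S_Pk`, `f_i = Sg g_i`, and `c ≠ 0` with `∑ c_i L_j (g_i) = 0` for all `j`; `g = ∑ c_i g_i`, `Sg g = ∑ c_i f_i` (`S_Cv`).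
`S_Mul` with `c1 = 1`, `D = exp (3 a)`, `θ = exp (- 16 a)`, on `[-(a+1), a+1]` (`Hn` is monotone in the interval for `ν = ⊤`, or use `a + 1 / T`): `QQ (Sg g) ≤ - X^(η + δ/4) S + K exp (6 a) log (3 + T) 2 exp (- 16 a) (m + 1) S`, `S = ∑ ‖c_i‖²`, `m + 1 ≤ 2 T + 2 ≤ exp a` (`S_Cnt`, `Q240/EW/Stm4.lean`), so `≤ - X^(η + δ/4) S / 2`; and
`N2 g ≤ (m + 1) ∑ ‖c_i‖² N2 g_i ≤ (2 T + 2) a S ≤ X^(δ/8) S / 4` (`T = X^(1/C)`, `C` large; Cauchy-Schwarz, as in the proof of `S_Mul`): contradiction to `QQ (Sg g) ≥ - X^η N2 g`. So a maximal set of `R`-separated zeros has at most `m` elements, all the zeros lie in `m` windows `|Im ρ - s_j| ≤ R`, each with at most `K R log (3 + 3 B)`, `B = max T R`, zeros (`cw`),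
i.e. at most `K' a²`. -/
def S_Dw : Prop := ∀ (ψ : ℝ → ℝ) (δ : ℝ), Bump ψ → 0 < δ → δ ≤ 1 / 2 → ∃ C0 C1 : ℝ, 0 < C1 ∧ ∀ C : ℝ, C0 ≤ C → ∃ A : ℝ, ∀ a η : ℝ, A ≤ a → 0 ≤ η →
  ∀ (m : ℕ) (L : Fin m → (ℝ → ℂ) →ₗ[ℂ] ℂ), (∀ g : ℝ → ℂ, Fa a g → (∀ j, L j g = 0) → -(Real.exp (2 * a * η) * N2 g) ≤ QQ (Sg ψ (Ht C a) g)) →
    ∀ F : Finset ℂ, (∀ ρ ∈ F, Y23.IsZ ρ ∧ η + δ ≤ |ρ.re - 1 / 2| ∧ |ρ.im| ≤ Ht C a) → ((∑ ρ ∈ F, mu ρ : ℕ) : ℝ) ≤ C1 * a ^ 2 * m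

/-- **Up**: few zeros, few negative directions. Uses `S_Cv`, `S_Psi`.
Proof. `T = Ht C a`, `X = exp (2 a)`, `d = max (η - δ) 0`. `QQ (Sg g) = ∑ mu Re (p TT g w conj (TT g (- conj w)))`, `p = Ps ψ (w / T)²` (see `S_Qp`), `w = ρ - 1/2`. Three kinds of zeros. (a) `|Re w| > d`, `|Im w| ≤ T^(1 + δ)`: `TT g w = 0` or `TT g (- conj w) = 0` (`- conj w = rfZ ρ - 1/2` has the same imaginary part), the term is `0`. (b) `|Re w| ≤ d`, `|Im w| ≤ T^(1 + δ)`: if `Re w = 0`, then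
`- conj w = w`, `p = ‖Ps ψ (w / T)‖²` (real by `S_Psi`: `Ps ψ (i v)` is real), the term is `≥ 0`. If `Re w ≠ 0`, then `d = η - δ > 0`, and the term is at least `- mu ‖p‖ exp (2 a d) 2 a N2 g` (`norm_TT_le`), `‖p‖ ≤ K T² / (1 + (Im ρ)²)`: the sum is at least `- K' T² X^(η - δ) a N2 g ≥ - X^η N2 g / 2` if `C ≥ 4 / δ` and `a` is large. (c) `|Im w| > T^(1 + δ)`: `‖p‖ ≤ K_k (T / |Im w|)^(2 k) ≤
K_k T^(- 2 δ (k - 1)) T² / (Im w)²`, `‖TT g w‖ ‖TT g (- conj w)‖ ≤ X^(1/2) 2 a N2 g`, so with `2 δ (k - 1) ≥ C` (`X = T^C`) the sum is at most `K' T² X^(1/2) X^(-1) a N2 g ≤ N2 g / 2 ≤ X^η N2 g / 2`. Summability: everything is `≤ K mu / (1 + (Im ρ)²)`. -/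
def S_Up : Prop := ∀ (ψ : ℝ → ℝ) (δ : ℝ), Bump ψ → 0 < δ → ∃ C0 : ℝ, ∀ C : ℝ, C0 ≤ C → ∃ A : ℝ, ∀ a η : ℝ, A ≤ a → 0 ≤ η → η ≤ 1 / 2 →
  ∀ g : ℝ → ℂ, Fa a g → (∀ ρ : Zt, max (η - δ) 0 < (ρ : ℂ).re - 1 / 2 → |(ρ : ℂ).im| ≤ (Ht C a) ^ (1 + δ) → TT g ((ρ : ℂ) - 1 / 2) = 0) →
    -(Real.exp (2 * a * η) * N2 g) ≤ QQ (Sg ψ (Ht C a) g)

/-! ### 4. The result -/

/-- the zeros of zeta with `Re ρ ≥ σ` and `0 < Im ρ ≤ T` -/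
def Zr (σ T : ℝ) : Set ℂ := {ρ | riemannZeta ρ = 0 ∧ σ ≤ ρ.re ∧ 0 < ρ.im ∧ ρ.im ≤ T}

/-- the set of zeros has at most `B` elements, counted with multiplicity -/
def AtMost (S : Set ℂ) (B : ℝ) : Prop := ∀ F : Finset ℂ, (∀ ρ ∈ F, ρ ∈ S) → ((∑ ρ ∈ F, analyticOrderNatAt riemannZeta ρ : ℕ) : ℝ) ≤ B

/-- the smoothed form is `≥ - exp (2 a η) N` on the kernel of at most `B` linear forms -/
def Idx (ψ : ℝ → ℝ) (C a η B : ℝ) : Prop := ∃ (m : ℕ) (L : Fin m → (ℝ → ℂ) →ₗ[ℂ] ℂ), (m : ℝ) ≤ B ∧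
  ∀ g : ℝ → ℂ, Fa a g → (∀ j, L j g = 0) → -(Real.exp (2 * a * η) * N2 g) ≤ QQ (Sg ψ (Ht C a) g)

/-- **Dn**: the equivalence with density theorems. Uses `S_Up`, `S_Dw`.
Proof. `→`: given `σ, e` take `δ` small: `σ - δ > 1/2`, `(1 + δ) (D (σ - δ) + e / 4) ≤ D σ + 3 e / 4` (continuity). `S_Up` with `η = σ - 1/2`: the functionals `g ↦ TT g (ρ - 1/2)` on the subspace of the `g` with `Fa a g` (a submodule; `TT` is linear there), extended to linear forms on all functions (`LinearMap.exists_extend`), for the zeros with `Re ρ > σ - δ`, `|Im ρ| ≤ T^(1 + δ)`; their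
number is at most `2 T^((1 + δ) (D (σ - δ) + e / 4)) + K`, `K` = the number of zeros with `Im = 0` (finite, `isZ_finite`), by the hypothesis for `σ - δ`, `T^(1 + δ)` (conjugation `isZ_conj` for the negative imaginary parts; `mu_pos`; `Re ρ < 1` by `riemannZeta_ne_zero_of_one_le_re`); this is `≤ T^(D σ + e)` for large `T`, as `D σ + e > 0`. If the set of zeros has `m` elements, index by `Fin m`.
`←`: given `σ, e` take `δ ≤ 1/2` with `σ - δ > 1/2`, `D (σ - δ) ≤ D σ + e / 4`, and `C` = the maximum of the two `C0` (for `σ - δ, e / 4`, and of `S_Dw`) and `1`; for large `T` let `a = C log T / 2`, so `Ht C a = T`; `S_Dw` with `η = σ - δ - 1/2`: the zeros of `Zr σ T` are at most `C1 a² T^(D (σ - δ) + e / 4) ≤ T^(D σ + e)`. -/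
def S_Dn : Prop := ∀ (ψ : ℝ → ℝ), Bump ψ → ∀ D : ℝ → ℝ, ContinuousOn D (Set.Ioc (1 / 2) 1) → (∀ σ : ℝ, 1 / 2 < σ → σ ≤ 1 → 0 ≤ D σ) →
  ((∀ σ e : ℝ, 1 / 2 < σ → σ ≤ 1 → 0 < e → ∃ T0 : ℝ, ∀ T : ℝ, T0 ≤ T → AtMost (Zr σ T) (T ^ (D σ + e))) ↔
    ∀ σ e : ℝ, 1 / 2 < σ → σ ≤ 1 → 0 < e → ∃ C0 : ℝ, ∀ C : ℝ, C0 ≤ C → ∃ A : ℝ, ∀ a : ℝ, A ≤ a → Idx ψ C a (σ - 1 / 2) ((Ht C a) ^ (D σ + e)))

end Pool.Agent.Q240.SD
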